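import Pool.Agent.H74.Leonard

set_option autoImplicit false

namespace Pool.Agent.Results.MP_105763_al.ZeroIntersection

open Pool.Agent.H74.Leonard

universe u v

/-- For a Leonard system on a space of dimension `d + 1`, the sum of the first `r + 1` eigenspaces
of `A*` meets the sum of any `d - r` eigenspaces of `A` trivially. -/
theorem result (K : Type u) [Field K] (V : Type v) [AddCommGroup V] [Module K V]
    [FiniteDimensional K V] (d : ℕ) (hV : Module.finrank K V = d + 1)
    (A As : Module.End K V) (θ θs : Fin (d + 1) → K) (h : IsLeonardSystem A As θ θs)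
    (r : Fin (d + 1)) (L : Finset (Fin (d + 1))) (hL : L.card ≤ d - r) :
    (⨆ i ∈ {i | i ≤ r}, LinearMap.range (prim As θs i)) ⊓
      (⨆ j ∈ (L : Set (Fin (d + 1))), LinearMap.range (prim A θ j)) = ⊥ := by
  obtain ⟨p1, e1⟩ := facts hV h.1
  obtain ⟨p2, -⟩ := facts hV h.2.1
  rw [eq_bot_iff]
  rintro x ⟨h1, h2⟩
  have := r.2
  exact zero_of p2 p1 h.2.2.2 θ e1 r L (by omega) x
    (fun l hl => kill p2 _ h1 l (by simpa using hl)) (fun j hj => kill p1 _ h2 j hj)

end Pool.Agent.Results.MP_105763_al.ZeroIntersection
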